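import Mathlib
import Pool.Graph.R_seed8.Helper45.MalcevExt

/-!
# Malcev coherence: kernels whose centraliser has finite index

A tuple version of the extension theorem of the library module `MalcevExt`, without the assumption
that the kernel is contained in its centraliser, and the passage to quotients.
-/

set_option autoImplicit false
set_option linter.style.haveILetI false
set_option linter.unusedSectionVars false

namespace Pool.Agent.H10.MC

open Subgroup Pool.Agent.Helper45

variable {G G' : Type*} [Group G] [Group G']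

/-- A finitely generated group whose elements commute with the elements of a subgroup of finite
index of a group: the intersection is finitely generated. -/
lemma fg_inf_of_finiteIndex {Q : Type*} [Group Q] (M Φ : Subgroup Q) (hM : M.FG) [Φ.FiniteIndex] :
    (M ⊓ Φ).FG := by
  haveI : Group.FG M := (Group.fg_iff_subgroup_fg M).2 hM
  haveI : (Φ.subgroupOf M).FiniteIndex := inferInstance
  haveI : Group.FG (Φ.subgroupOf M) := inferInstance
  have h3 : (Φ.subgroupOf M).FG := (Group.fg_iff_subgroup_fg _).1 inferInstance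
  have h4 : ((Φ.subgroupOf M).map M.subtype).FG := fg_map _ h3
  rwa [Subgroup.subgroupOf_map_subtype, inf_comm] at h4

/-- **Extension theorem for one tuple.** Let `π : G → G'` be a homomorphism and `C` a normal
subgroup of finite index of `G` that centralises the kernel of `π`. If the positive relations of
`π ∘ a` are finitely based, so are those of `a`. -/
theorem FinRel_of_hom {n : ℕ} (a : Fin n → G) (π : G →* G') (C : Subgroup G) [C.Normal]
    [C.FiniteIndex] (hcomm : ∀ x ∈ π.ker, ∀ c ∈ C, x * c = c * x) (h : FinRel (π ∘ a)) :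
    FinRel a := by
  obtain ⟨E, hEf, hE1, hE2⟩ := h
  have hM : normalClosure (Rel (π ∘ a)) = normalClosure E :=
    le_antisymm (normalClosure_le_normal hE2) (normalClosure_mono hE1)
  have hNM : normalClosure (Rel a) ≤ normalClosure (Rel (π ∘ a)) := by
    apply normalClosure_mono
    rintro r ⟨u, v, hu, hv, huv, rfl⟩
    exact ⟨u, v, hu, hv, by rw [val_comp, val_comp, huv], rfl⟩
  let Φ : Subgroup (FreeGroup (Fin n)) := C.comap (FreeGroup.lift a)
  haveI hΦi : Φ.FiniteIndex := by
    constructor
    rw [Subgroup.index_comap]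
    haveI : C.IsFiniteRelIndex (FreeGroup.lift a).range := isFiniteRelIndex_of_finiteIndex
    exact Subgroup.relIndex_ne_zero
  haveI hΦn : Φ.Normal := inferInstance
  haveI : Group.FG Φ := inferInstance
  obtain ⟨Y, hY⟩ : Φ.FG := (Group.fg_iff_subgroup_fg Φ).1 inferInstance
  have hNΦ : normalClosure (Rel a) ≤ Φ := by
    apply normalClosure_le_normal
    rintro r ⟨u, v, hu, hv, huv, rfl⟩
    show FreeGroup.lift a (pos u * (pos v)⁻¹) ∈ C
    have : FreeGroup.lift a (pos u * (pos v)⁻¹) = 1 := by simp [huv]
    rw [this]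
    exact one_mem _
  have hE1fin : (Set.image2 (fun r y : FreeGroup (Fin n) => r * y * r⁻¹ * y⁻¹) E Y).Finite :=
    Set.Finite.image2 _ hEf Y.finite_toSet
  have hE1sub : (Set.image2 (fun r y : FreeGroup (Fin n) => r * y * r⁻¹ * y⁻¹) E Y) ⊆
      normalClosure (Rel a) := by
    rintro z ⟨r, hr, y, hy, rfl⟩
    refine commutator_mem n a π C hcomm r (hE1 hr) y ?_
    have : y ∈ Φ := by rw [← hY]; exact subset_closure hy
    exact this
  obtain ⟨R₁, hR₁sub, hR₁f, hR₁⟩ := exists_finite_of_subset_normalClosure hE1fin hE1sub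
  let q : FreeGroup (Fin n) →* FreeGroup (Fin n) ⧸ normalClosure R₁ :=
    QuotientGroup.mk' (normalClosure R₁)
  have hqs : Function.Surjective q := QuotientGroup.mk'_surjective _
  have hcE : ∀ r ∈ E, ∀ y ∈ Φ, Commute (q r) (q y) := by
    intro r hr y hy
    rw [← hY] at hy
    induction hy using Subgroup.closure_induction with
    | mem y hy =>
      have h1 : r * y * r⁻¹ * y⁻¹ ∈ normalClosure R₁ := hR₁ ⟨r, hr, y, hy, rfl⟩
      have h2 : q (r * y * r⁻¹ * y⁻¹) = 1 := (QuotientGroup.eq_one_iff _).2 h1
      simp only [map_mul, map_inv] at h2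
      show q r * q y = q y * q r
      calc q r * q y = (q r * q y * (q r)⁻¹ * (q y)⁻¹) * (q y * q r) := by group
        _ = q y * q r := by rw [h2, one_mul]
    | one => simp
    | mul y z _ _ hy hz => rw [map_mul]; exact hy.mul_right hz
    | inv y _ hy => rw [map_inv]; exact hy.inv_right
  -- the image of the big relation subgroup commutes with the image of `Φ`
  have hcM : ∀ m ∈ normalClosure (Rel (π ∘ a)), ∀ y ∈ Φ, Commute (q m) (q y) := by
    intro m hm
    rw [hM] at hm
    unfold Subgroup.normalClosure at hm
    induction hm using Subgroup.closure_induction with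
    | mem m hm =>
      intro y hy
      obtain ⟨r, hr, hc⟩ := Group.mem_conjugatesOfSet_iff.1 hm
      obtain ⟨c, rfl⟩ := isConj_iff.1 hc
      have h1 := hcE r hr (c⁻¹ * y * c) (by
        have := hΦn.conj_mem y hy c⁻¹
        simpa using this)
      show q (c * r * c⁻¹) * q y = q y * q (c * r * c⁻¹)
      have h2 : q r * (q c⁻¹ * q y * q c) = (q c⁻¹ * q y * q c) * q r := by
        have := h1.eq
        simpa only [map_mul] using this
      simp only [map_mul, map_inv] at h2 ⊢
      calc q c * q r * (q c)⁻¹ * q y
          = q c * (q r * ((q c)⁻¹ * q y * q c)) * (q c)⁻¹ := by group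
        _ = q c * (((q c)⁻¹ * q y * q c) * q r) * (q c)⁻¹ := by rw [h2]
        _ = q y * (q c * q r * (q c)⁻¹) := by group
    | one => intro y hy; simp
    | mul m m' _ _ hm hm' =>
      intro y hy; rw [map_mul]; exact (hm y hy).mul_left (hm' y hy)
    | inv m _ hm => intro y hy; rw [map_inv]; exact (hm y hy).inv_left
  -- finite generation
  have hMfg : ((normalClosure (Rel (π ∘ a))).map q).FG := by
    have hfin : Finite (FreeGroup (Fin n) ⧸ Φ) := Subgroup.finite_quotient_of_finiteIndex
    let T : Set (FreeGroup (Fin n)) := Set.range (Quotient.out : FreeGroup (Fin n) ⧸ Φ → _)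
    have hTf : T.Finite := Set.finite_range _
    let W : Set (FreeGroup (Fin n) ⧸ normalClosure R₁) :=
      Set.image2 (fun t r => q t * q r * (q t)⁻¹) T E
    have hWf : W.Finite := Set.Finite.image2 _ hTf hEf
    have himg : (q '' (Group.conjugatesOfSet E)) ⊆ W := by
      rintro _ ⟨z, hz, rfl⟩
      obtain ⟨r, hr, hc⟩ := Group.mem_conjugatesOfSet_iff.1 hz
      obtain ⟨c, rfl⟩ := isConj_iff.1 hc
      set t := (Quotient.out (QuotientGroup.mk c : FreeGroup (Fin n) ⧸ Φ)) with ht
      refine ⟨t, ⟨_, rfl⟩, r, hr, ?_⟩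
      have hx : t⁻¹ * c ∈ Φ := by
        rw [← QuotientGroup.eq, ht]
        exact Quotient.out_eq _
      have h1 := (hcE r hr _ hx).eq
      have hc' : c = t * (t⁻¹ * c) := by group
      show q t * q r * (q t)⁻¹ = q (c * r * c⁻¹)
      simp only [map_mul, map_inv] at h1 ⊢
      calc q t * q r * (q t)⁻¹
          = q t * (q r * ((q t)⁻¹ * q c)) * (q c)⁻¹ := by group
        _ = q t * (((q t)⁻¹ * q c) * q r) * (q c)⁻¹ := by rw [h1]
        _ = q c * q r * (q c)⁻¹ := by group
    have hfin2 : (q '' (Group.conjugatesOfSet E)).Finite := hWf.subset himg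
    have : (normalClosure (Rel (π ∘ a))).map q = closure (q '' (Group.conjugatesOfSet E)) := by
      have hdef : normalClosure E = closure (Group.conjugatesOfSet E) := rfl
      rw [hM, hdef, MonoidHom.map_closure]
    rw [this]
    exact ⟨hfin2.toFinset, by simp⟩
  haveI hΦqi : (Φ.map q).FiniteIndex := by
    constructor
    intro h0
    have h1 : (Φ.map q).index ∣ Φ.index := Subgroup.index_map_dvd Φ hqs
    rw [h0, zero_dvd_iff] at h1
    exact Subgroup.FiniteIndex.index_ne_zero h1
  have hinter := fg_inf_of_finiteIndex ((normalClosure (Rel (π ∘ a))).map q) (Φ.map q) hMfg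
  have hJfg : ((normalClosure (Rel a)).map q).FG := by
    refine fg_of_le_fg_comm _ _ hinter ?_
      (le_inf (Subgroup.map_mono hNM) (Subgroup.map_mono hNΦ))
    rintro _ ⟨⟨x, hx, rfl⟩, -⟩ _ ⟨-, ⟨y, hy, rfl⟩⟩
    exact (hcM x hx y hy).eq
  haveI hJn : ((normalClosure (Rel a)).map q).Normal :=
    Subgroup.Normal.map inferInstance q hqs
  haveI : Group.FG ((normalClosure (Rel a)).map q) := (Group.fg_iff_subgroup_fg _).2 hJfg
  have hJ : ((normalClosure (Rel a)).map q).IsFinitelyNormallyGenerated :=
    Subgroup.IsFinitelyNormallyGenerated.of_FG _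
  have hker' : q.ker = normalClosure R₁ := QuotientGroup.ker_mk' _
  have hR₁le : normalClosure R₁ ≤ normalClosure (Rel a) := normalClosure_mono hR₁sub
  have hfinal := hJ.comap hqs ⟨R₁, hR₁f, hker'.symm⟩
  have hcomap : ((normalClosure (Rel a)).map q).comap q = normalClosure (Rel a) := by
    rw [Subgroup.comap_map_eq, hker']
    exact sup_eq_left.2 hR₁le
  rw [hcomap] at hfinal
  obtain ⟨S, hSf, hS⟩ := hfinal
  refine finRel_of_finite a S hSf ?_ ?_
  · rw [← hS]; exact subset_normalClosure
  · rw [hS]; exact subset_normalClosure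

/-! ### Transfer of `FinRel` -/

/-- Injective homomorphisms do not change the positive relations. -/
lemma Rel_comp_of_injective {A : Type*} (a : A → G) (f : G →* G') (hf : Function.Injective f) :
    Rel (f ∘ a) = Rel a := by
  ext r
  constructor
  · rintro ⟨u, v, hu, hv, huv, rfl⟩
    rw [val_comp, val_comp] at huv
    exact ⟨u, v, hu, hv, hf huv, rfl⟩
  · rintro ⟨u, v, hu, hv, huv, rfl⟩
    exact ⟨u, v, hu, hv, by rw [val_comp, val_comp, huv], rfl⟩

lemma FinRel_comp_of_injective {A : Type*} (a : A → G) (f : G →* G')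
    (hf : Function.Injective f) : FinRel (f ∘ a) ↔ FinRel a := by
  unfold FinRel
  rw [Rel_comp_of_injective a f hf]

lemma map_pos {A B : Type*} (e : A → B) (l : List A) : FreeGroup.map e (pos l) = pos (l.map e) := by
  induction l with
  | nil => simp
  | cons x l ih => simp [ih]

lemma val_map {A B : Type*} (e : A → B) (b : B → G) (l : List A) :
    val b (l.map e) = val (b ∘ e) l := by
  induction l with
  | nil => simp
  | cons x l ih => simp [ih]

/-- Transport along a bijection of the alphabets. -/
lemma FinRel_of_equiv {A B : Type*} (e : A ≃ B) (b : B → G) (h : FinRel (b ∘ e)) : FinRel b := by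
  obtain ⟨E, hEf, hE1, hE2⟩ := h
  refine ⟨FreeGroup.map e '' E, hEf.image _, ?_, ?_⟩
  · rintro _ ⟨r, hr, rfl⟩
    obtain ⟨u, v, hu, hv, huv, rfl⟩ := hE1 hr
    refine ⟨u.map e, v.map e, by simpa using hu, by simpa using hv, ?_, ?_⟩
    · rw [val_map, val_map]; exact huv
    · rw [map_mul, map_inv, map_pos, map_pos]
  · rintro r ⟨u, v, hu, hv, huv, rfl⟩
    have h1 : pos (u.map e.symm) * (pos (v.map e.symm))⁻¹ ∈ normalClosure E := by
      apply hE2
      refine ⟨u.map e.symm, v.map e.symm, by simpa using hu, by simpa using hv, ?_, rfl⟩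
      rw [val_map, val_map]
      have : (b ∘ e) ∘ e.symm = b := by
        funext x; simp
      rw [this]; exact huv
    have h2 : FreeGroup.map e (pos (u.map e.symm) * (pos (v.map e.symm))⁻¹) ∈
        (normalClosure E).map (FreeGroup.map e) := ⟨_, h1, rfl⟩
    have h3 : (normalClosure E).map (FreeGroup.map e) ≤ normalClosure (FreeGroup.map e '' E) := by
      rw [Subgroup.map_le_iff_le_comap]
      apply normalClosure_le_normal
      intro x hx
      exact subset_normalClosure ⟨x, hx, rfl⟩
    have h4 := h3 h2
    rw [map_mul, map_inv, map_pos, map_pos, List.map_map, List.map_map] at h4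
    simpa using h4

lemma FinRel_of_FR {A : Type*} [Finite A] (h : FR G) (b : A → G) : FinRel b := by
  obtain ⟨n, ⟨e⟩⟩ := Finite.exists_equiv_fin A
  exact FinRel_of_equiv e.symm b (h n _)

/-! ### Quotients -/

/-- the letters of the left alphabet in a word -/
def lefts {A B : Type*} : List (A ⊕ B) → List A
  | [] => []
  | Sum.inl x :: l => x :: lefts l
  | Sum.inr _ :: l => lefts l

/-- Let `ρ` kill the elements `z j`, and suppose that two words in the letters `a` with the same
value under `ρ` differ by a word in the letters `z`. If the positive relations of the tuple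
`(a, z)` are finitely based, so are those of `ρ ∘ a`. -/
theorem FinRel_quotient {A B : Type*} (a : A → G) (z : B → G) (ρ : G →* G')
    (hz : ∀ j, ρ (z j) = 1)
    (hw : ∀ u v : List A, ρ (val a u) = ρ (val a v) → ∃ w : List B, val a u = val a v * val z w)
    (h : FinRel (Sum.elim a z)) : FinRel (ρ ∘ a) := by
  obtain ⟨E, hEf, hE1, hE2⟩ := h
  let τ : FreeGroup (A ⊕ B) →* FreeGroup A := FreeGroup.lift (Sum.elim FreeGroup.of fun _ => 1)
  have hτ : ∀ l : List (A ⊕ B), τ (pos l) = pos (lefts l) := by
    intro l
    induction l with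
    | nil => simp [lefts]
    | cons x l ih =>
      rcases x with x | x
      · rw [pos_cons, map_mul, ih]; simp [τ, lefts]
      · rw [pos_cons, map_mul, ih]; simp [τ, lefts]
  have hρ : ∀ l : List (A ⊕ B), ρ (val (Sum.elim a z) l) = val (ρ ∘ a) (lefts l) := by
    intro l
    induction l with
    | nil => simp [lefts]
    | cons x l ih =>
      rcases x with x | x
      · rw [val_cons, map_mul, ih]; simp [lefts]
      · rw [val_cons, map_mul, ih]; simp [lefts, hz]
  refine finRel_of_finite (ρ ∘ a) (τ '' E) (hEf.image _) ?_ ?_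
  · rintro _ ⟨r, hr, rfl⟩
    obtain ⟨u, v, hu, hv, huv, rfl⟩ := hE1 hr
    rw [map_mul, map_inv, hτ, hτ]
    apply mem_of_val_eq
    rw [← hρ, ← hρ, huv]
  · rintro r ⟨u, v, hu, hv, huv, rfl⟩
    rw [val_comp, val_comp] at huv
    obtain ⟨w, hw⟩ := hw u v huv
    have h1 : pos (u.map Sum.inl) * (pos (v.map Sum.inl ++ w.map Sum.inr))⁻¹ ∈
        normalClosure (Rel (Sum.elim a z)) := by
      apply mem_of_val_eq
      rw [val_append, val_map, val_map, val_map]
      exact hw
    have h2 := (normalClosure_le_normal hE2) h1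
    have h3 : (normalClosure E).map τ ≤ normalClosure (τ '' E) := by
      rw [Subgroup.map_le_iff_le_comap]
      apply normalClosure_le_normal
      intro x hx
      exact subset_normalClosure ⟨x, hx, rfl⟩
    have h4 := h3 ⟨_, h2, rfl⟩
    have e1 : ∀ l : List A, lefts (l.map (Sum.inl : A → A ⊕ B)) = l := by
      intro l
      induction l with
      | nil => rfl
      | cons x l ih => simp [lefts, ih]
    have e2 : ∀ (l : List A) (m : List B),
        lefts (l.map (Sum.inl : A → A ⊕ B) ++ m.map Sum.inr) = l := by
      intro l m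
      induction l with
      | nil =>
        induction m with
        | nil => rfl
        | cons x m ih => simpa [lefts] using ih
      | cons x l ih => simp [lefts, ih]
    rw [map_mul, map_inv, hτ, hτ, e1, e2] at h4
    exact h4

end Pool.Agent.H10.MC
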