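import Mathlib
import Pool.Graph.R_seed8.Helper45.MalcevMain
import Pool.Agent.H10.MC.Ext

/-!
# Malcev coherence as in the frozen statements, and finitely based positive relations
-/

set_option autoImplicit false
set_option linter.style.haveILetI false

namespace Pool.Agent.H10.MC

open Subgroup Pool.Agent.Helper45

/-- The semigroup `S` has a finite Malcev presentation: there are a surjective homomorphism `f` from
the free semigroup on `n` letters onto `S` and a finite set `R` of pairs of words, with equal values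
in `S`, such that every homomorphism `g` from the free semigroup to a group which identifies the
pairs of `R` identifies all words with equal values in `S`. -/
def FinMalcev (S : Type) [Semigroup S] : Prop :=
  ∃ (n : ℕ) (R : Finset (FreeSemigroup (Fin n) × FreeSemigroup (Fin n)))
    (f : FreeSemigroup (Fin n) →ₙ* S),
    Function.Surjective f ∧ (∀ p ∈ R, f p.1 = f p.2) ∧
    ∀ (H : Type) [Group H] (g : FreeSemigroup (Fin n) →ₙ* H),
      (∀ p ∈ R, g p.1 = g p.2) → ∀ x y, f x = f y → g x = g y

/-- The group `G` is Malcev coherent: all its finitely generated subsemigroups have finite Malcev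
presentations. -/
def MalcevCoh (G : Type) [Group G] : Prop :=
  ∀ S : Subsemigroup G, (∃ T : Finset G, S = Subsemigroup.closure (T : Set G)) → FinMalcev S

lemma lift_surjective {S : Type} [Semigroup S] {A : Type} (ι : A → S)
    (h : Subsemigroup.closure (Set.range ι) = ⊤) :
    Function.Surjective (FreeSemigroup.lift ι : FreeSemigroup A →ₙ* S) := by
  intro x
  have hx : x ∈ Subsemigroup.closure (Set.range ι) := by rw [h]; trivial
  induction hx using Subsemigroup.closure_induction with
  | mem x hx =>
    obtain ⟨j, rfl⟩ := hx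
    exact ⟨FreeSemigroup.of j, by simp⟩
  | mul x y _ _ hx hy =>
    obtain ⟨u, rfl⟩ := hx
    obtain ⟨v, rfl⟩ := hy
    exact ⟨u * v, by rw [map_mul]⟩

/-- From Malcev presentations of the library module to the ones of the frozen statement. -/
lemma finMalcev_of {S : Type} [Semigroup S] (h : HasFiniteMalcevPresentation S) :
    FinMalcev S := by
  classical
  obtain ⟨n, ι, ρ, hρ, h1, h2⟩ := h
  refine ⟨n, hρ.toFinset, FreeSemigroup.lift ι, lift_surjective ι h1, ?_, ?_⟩
  · intro p hp
    rw [Set.Finite.mem_toFinset] at hp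
    rw [h2]
    unfold gpValue
    have h3 : PresentedGroup.mk (relators ρ) (posWord p.1 * (posWord p.2)⁻¹) = 1 :=
      (QuotientGroup.eq_one_iff _).2 (subset_normalClosure ⟨p, hp, rfl⟩)
    rw [map_mul, map_inv] at h3
    exact mul_inv_eq_one.1 h3
  · intro H _ g hg x y hxy
    rw [h2] at hxy
    let φ : FreeGroup (Fin n) →* H := FreeGroup.lift (fun i => g (FreeSemigroup.of i))
    have hφ : ∀ w : FreeSemigroup (Fin n), φ (posWord w) = g w := by
      intro w
      induction w using FreeSemigroup.recOnMul with
      | ih1 x => simp [φ, posWord]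
      | ih2 x y hx hy => rw [map_mul, map_mul, map_mul, hx, hy]
    have hk : normalClosure (relators ρ) ≤ φ.ker := by
      apply normalClosure_le_normal
      rintro r ⟨p, hp, rfl⟩
      show φ (posWord p.1 * (posWord p.2)⁻¹) = 1
      rw [map_mul, map_inv, hφ, hφ, hg p ((Set.Finite.mem_toFinset hρ).2 hp), mul_inv_cancel]
    have h3 : PresentedGroup.mk (relators ρ) (posWord x * (posWord y)⁻¹) = 1 := by
      rw [map_mul, map_inv]
      exact mul_inv_eq_one.2 hxy
    have h4 : φ (posWord x * (posWord y)⁻¹) = 1 := hk ((QuotientGroup.eq_one_iff _).1 h3)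
    rw [map_mul, map_inv, hφ, hφ] at h4
    exact mul_inv_eq_one.1 h4

theorem malcevCoh_of_FR {G : Type} [Group G] (h : FR G) : MalcevCoh G := by
  rintro S ⟨T, hT⟩
  exact finMalcev_of (malcevCoherent_of_FR h S ⟨T, T.finite_toSet, hT.symm⟩)

/-- Malcev coherence gives a finite basis of the positive relations of every tuple. -/
theorem FR_of_malcevCoh {G : Type} [Group G] (h : MalcevCoh G) : FR G := by
  classical
  intro n a
  set S : Subsemigroup G := Subsemigroup.closure (Set.range a) with hS
  obtain ⟨m, R, f, hf, hR, huniv⟩ := h S ⟨(Set.finite_range a).toFinset, by simp [hS]⟩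
  have haS : ∀ i, a i ∈ S := fun i => Subsemigroup.subset_closure ⟨i, rfl⟩
  choose w hw using fun i => hf ⟨a i, haS i⟩
  -- lifts of the generators of the presentation
  have hex0 : ∀ x ∈ Subsemigroup.closure (Set.range a), ∃ v : FreeSemigroup (Fin n),
      FreeSemigroup.lift a v = x := by
    intro x hj
    induction hj using Subsemigroup.closure_induction with
    | mem x hx =>
      obtain ⟨i, rfl⟩ := hx
      exact ⟨FreeSemigroup.of i, by simp⟩
    | mul x y _ _ hx hy =>
      obtain ⟨u, hu⟩ := hx
      obtain ⟨v, hv⟩ := hy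
      exact ⟨u * v, by rw [map_mul, hu, hv]⟩
  have hex : ∀ j : Fin m, ∃ v : FreeSemigroup (Fin n),
      FreeSemigroup.lift a v = (f (FreeSemigroup.of j) : G) :=
    fun j => hex0 _ (f (FreeSemigroup.of j)).2
  choose v hv using hex
  let θ : FreeSemigroup (Fin m) →ₙ* FreeSemigroup (Fin n) := FreeSemigroup.lift v
  have hθ : ∀ x : FreeSemigroup (Fin m), FreeSemigroup.lift a (θ x) = (f x : G) := by
    intro x
    induction x using FreeSemigroup.recOnMul with
    | ih1 x => rw [← hv]; simp [θ]
    | ih2 x y hx hy => rw [map_mul, map_mul, map_mul, hx, hy]; rfl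
  let E₁ : Set (FreeGroup (Fin n)) :=
    (fun p : FreeSemigroup (Fin m) × FreeSemigroup (Fin m) =>
      posWord (θ p.1) * (posWord (θ p.2))⁻¹) '' (R : Set _)
  let E₂ : Set (FreeGroup (Fin n)) :=
    Set.range fun i : Fin n => posWord (FreeSemigroup.of i) * (posWord (θ (w i)))⁻¹
  have hrel : ∀ x y : FreeSemigroup (Fin n), FreeSemigroup.lift a x = FreeSemigroup.lift a y →
      posWord x * (posWord y)⁻¹ ∈ Rel a := by
    intro x y hxy
    refine ⟨x.head :: x.tail, y.head :: y.tail, by simp, by simp, ?_, ?_⟩
    · rw [← lift_eq_val, ← lift_eq_val, hxy]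
    · rw [posWord_eq, posWord_eq]
  refine ⟨E₁ ∪ E₂, ((R.finite_toSet).image _).union (Set.finite_range _), ?_, ?_⟩
  · rintro r (⟨p, hp, rfl⟩ | ⟨i, rfl⟩)
    · apply hrel
      rw [hθ, hθ, hR p hp]
    · apply hrel
      rw [hθ, hw]
      simp
  · rintro r ⟨u, u', hu, hu', huv, rfl⟩
    obtain ⟨x, rfl⟩ := exists_word u hu
    obtain ⟨y, rfl⟩ := exists_word u' hu'
    rw [← lift_eq_val, ← lift_eq_val] at huv
    rw [← posWord_eq, ← posWord_eq]
    let q : FreeGroup (Fin n) →* FreeGroup (Fin n) ⧸ normalClosure (E₁ ∪ E₂) :=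
      QuotientGroup.mk' _
    let g : FreeSemigroup (Fin m) →ₙ* FreeGroup (Fin n) ⧸ normalClosure (E₁ ∪ E₂) :=
      { toFun := fun x => q (posWord (θ x))
        map_mul' := fun x y => by rw [map_mul, map_mul, map_mul] }
    have hgR : ∀ p ∈ R, g p.1 = g p.2 := by
      intro p hp
      have h1 : q (posWord (θ p.1) * (posWord (θ p.2))⁻¹) = 1 :=
        (QuotientGroup.eq_one_iff _).2 (subset_normalClosure (Or.inl ⟨p, hp, rfl⟩))
      rw [map_mul, map_inv] at h1
      exact mul_inv_eq_one.1 h1
    have hgw : ∀ i, g (w i) = q (posWord (FreeSemigroup.of i)) := by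
      intro i
      have h1 : q (posWord (FreeSemigroup.of i) * (posWord (θ (w i)))⁻¹) = 1 :=
        (QuotientGroup.eq_one_iff _).2 (subset_normalClosure (Or.inr ⟨i, rfl⟩))
      rw [map_mul, map_inv] at h1
      exact (mul_inv_eq_one.1 h1).symm
    let ω : FreeSemigroup (Fin n) →ₙ* FreeSemigroup (Fin m) := FreeSemigroup.lift w
    have hω : ∀ x, g (ω x) = q (posWord x) := by
      intro x
      induction x using FreeSemigroup.recOnMul with
      | ih1 i =>
        have : ω (FreeSemigroup.of i) = w i := by simp [ω]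
        rw [this]; exact hgw i
      | ih2 x y hx hy => rw [map_mul, map_mul, map_mul, map_mul, hx, hy]
    have hfω : ∀ x, (f (ω x) : G) = FreeSemigroup.lift a x := by
      intro x
      induction x using FreeSemigroup.recOnMul with
      | ih1 i =>
        have : ω (FreeSemigroup.of i) = w i := by simp [ω]
        rw [this, hw]; simp
      | ih2 x y hx hy => rw [map_mul, map_mul, map_mul, ← hx, ← hy]; rfl
    have h1 : f (ω x) = f (ω y) := Subtype.ext (by rw [hfω, hfω, huv])
    have h2 := huniv _ g hgR _ _ h1
    rw [hω, hω] at h2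
    refine (QuotientGroup.eq_one_iff _).1 ?_
    show q (posWord x * (posWord y)⁻¹) = 1
    rw [map_mul, map_inv, h2, mul_inv_cancel]

theorem malcevCoh_iff {G : Type} [Group G] : MalcevCoh G ↔ FR G :=
  ⟨FR_of_malcevCoh, malcevCoh_of_FR⟩

end Pool.Agent.H10.MC
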