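import Mathlib
import Pool.Graph.R_seed8.Helper45.MalcevMain
import Pool.Agent.H10.MC.Ext

/-!
# Malcev coherence and finite extensions acting by inner automorphisms
-/

set_option autoImplicit false
set_option linter.style.haveILetI false
set_option linter.unusedSectionVars false

namespace Pool.Agent.H10.MC

open Subgroup Pool.Agent.Helper45

section Groups

variable {G G' : Type*} [Group G] [Group G']

/-- Elements of the submonoid generated by a family are values of words. -/
lemma exists_word_of_mem {B : Type*} (z : B → G) {x : G}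
    (hx : x ∈ Submonoid.closure (Set.range z)) : ∃ w : List B, x = val z w := by
  induction hx using Submonoid.closure_induction with
  | mem x hx =>
    obtain ⟨j, rfl⟩ := hx
    exact ⟨[j], by simp⟩
  | one => exact ⟨[], by simp⟩
  | mul x y _ _ hx hy =>
    obtain ⟨u, rfl⟩ := hx
    obtain ⟨v, rfl⟩ := hy
    exact ⟨u ++ v, by simp⟩

/-- A finitely generated subgroup is generated as a monoid by a finite family. -/
lemma exists_monoid_generators (N : Subgroup G) (hN : N.FG) :
    ∃ (m : ℕ) (z : Fin m → G), (∀ j, z j ∈ N) ∧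
      ∀ x ∈ N, ∃ w : List (Fin m), x = val z w := by
  obtain ⟨S, hS⟩ := (Subgroup.fg_iff_submonoid_fg N).1 hN
  obtain ⟨m, ⟨e⟩⟩ := Finite.exists_equiv_fin S
  let z : Fin m → G := fun j => (e.symm j : S)
  have hz : Set.range z = (S : Set G) := by
    ext x
    constructor
    · rintro ⟨j, rfl⟩; exact (e.symm j).2
    · intro hx; exact ⟨e ⟨x, hx⟩, by simp [z]⟩
  refine ⟨m, z, ?_, ?_⟩
  · intro j
    have h1 : z j ∈ Submonoid.closure (S : Set G) := by
      rw [← hz]; exact Submonoid.subset_closure ⟨j, rfl⟩
    rw [hS] at h1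
    exact h1
  · intro x hx
    apply exists_word_of_mem z
    rw [hz, hS]
    exact hx

lemma val_mem {A : Type*} (a : A → G) (H : Subgroup G) (h : ∀ i, a i ∈ H) (l : List A) :
    val a l ∈ H := by
  induction l with
  | nil => simp [one_mem]
  | cons x l ih => rw [val_cons]; exact mul_mem (h x) ih

theorem FR_of_injective (f : G →* G') (hf : Function.Injective f) (h : FR G') : FR G :=
  fun n a => (FinRel_comp_of_injective a f hf).1 (h n _)

/-- Extensions by a normal subgroup whose centraliser has finite index. -/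
theorem FR_of_centralizer (N : Subgroup G) [N.Normal]
    (hC : (centralizer (N : Set G)).FiniteIndex) (h : FR (G ⧸ N)) : FR G := by
  intro n a
  haveI := hC
  haveI : (centralizer (N : Set G)).Normal := inferInstance
  refine FinRel_of_hom a (QuotientGroup.mk' N) (centralizer (N : Set G)) ?_ (h n _)
  intro x hx c hc
  rw [QuotientGroup.ker_mk'] at hx
  exact Subgroup.mem_centralizer_iff.1 hc x hx

/-- Quotients by finitely generated normal subgroups. -/
theorem FR_quotient (N : Subgroup G) [N.Normal] (hN : N.FG) (h : FR G) : FR (G ⧸ N) := by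
  intro n b
  obtain ⟨m, z, hz, hw⟩ := exists_monoid_generators N hN
  choose a ha using fun i => QuotientGroup.mk'_surjective N (b i)
  have hab : (QuotientGroup.mk' N) ∘ a = b := funext ha
  rw [← hab]
  refine FinRel_quotient a z (QuotientGroup.mk' N) ?_ ?_ (FinRel_of_FR h _)
  · intro j
    exact (QuotientGroup.eq_one_iff _).2 (hz j)
  · intro u v huv
    have h1 : (val a v)⁻¹ * val a u ∈ N := by
      rw [← QuotientGroup.eq]
      exact huv.symm
    obtain ⟨w, hw⟩ := hw _ h1
    exact ⟨w, by rw [← hw]; group⟩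

/-- Finite extensions of the form `G = H C_G(H)`. -/
theorem FR_inner (H : Subgroup G) [H.Normal] [H.FiniteIndex] (hH : FR H)
    (hG : ∀ g : G, ∃ h ∈ H, ∃ c ∈ centralizer (H : Set G), g = h * c) : FR G := by
  classical
  intro n a
  choose h hh c hc hac using fun i => hG (a i)
  set C₁ : Subgroup G := closure (Set.range c) with hC₁
  set G₁ : Subgroup G := closure (Set.range h ∪ Set.range c) with hG₁
  have hCG : C₁ ≤ G₁ := closure_mono Set.subset_union_right
  have hCc : C₁ ≤ centralizer (H : Set G) := by
    rw [hC₁, closure_le]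
    rintro _ ⟨i, rfl⟩
    exact hc i
  have hcomm : ∀ x ∈ C₁, ∀ y ∈ H, x * y = y * x := by
    intro x hx y hy
    exact (Subgroup.mem_centralizer_iff.1 (hCc hx) y hy).symm
  have hnorm : G₁ ≤ normalizer (C₁ : Set G) := by
    rw [hG₁, closure_le]
    rintro _ (⟨i, rfl⟩ | ⟨i, rfl⟩)
    · rw [SetLike.mem_coe, Subgroup.mem_normalizer_iff]
      intro x
      constructor
      · intro hx
        have : h i * x * (h i)⁻¹ = x := by
          rw [← hcomm x hx _ (hh i)]; group
        rw [this]; exact hx
      · intro hx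
        have e := hcomm _ hx _ (hh i)
        have : x = h i * x * (h i)⁻¹ := by
          have e2 : h i * x = h i * (h i * x * (h i)⁻¹) := by
            rw [← e]; group
          exact mul_left_cancel e2
        rw [this]; exact hx
    · exact Subgroup.le_normalizer (subset_closure ⟨i, rfl⟩)
  have hn : (C₁.subgroupOf G₁).Normal := (Subgroup.normal_subgroupOf_iff_le_normalizer hCG).2 hnorm
  let π : G₁ →* G₁ ⧸ C₁.subgroupOf G₁ := QuotientGroup.mk' _
  have hhG : ∀ i, h i ∈ G₁ := fun i => subset_closure (Or.inl ⟨i, rfl⟩)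
  have hcG : ∀ i, c i ∈ G₁ := fun i => subset_closure (Or.inr ⟨i, rfl⟩)
  let a' : Fin n → G₁ := fun i => ⟨a i, by rw [hac i]; exact mul_mem (hhG i) (hcG i)⟩
  let h' : Fin n → G₁ := fun i => ⟨h i, hhG i⟩
  have hπ : π ∘ a' = π ∘ h' := by
    funext i
    show π (a' i) = π (h' i)
    refine (QuotientGroup.eq).2 ?_
    rw [Subgroup.mem_subgroupOf]
    show (a i)⁻¹ * h i ∈ C₁
    rw [hac i]
    have : (h i * c i)⁻¹ * h i = (c i)⁻¹ := by group
    rw [this]
    exact inv_mem (subset_closure ⟨i, rfl⟩)
  have hCfg : C₁.FG := ⟨(Set.finite_range c).toFinset, by simp [hC₁]⟩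
  obtain ⟨m, z, hz, hw⟩ := exists_monoid_generators (C₁ ⊓ H) (fg_inf_of_finiteIndex C₁ H hCfg)
  let z' : Fin m → G₁ := fun j => ⟨z j, hCG (hz j).1⟩
  have hfin : FinRel (Sum.elim h' z') := by
    let b : Fin n ⊕ Fin m → H := Sum.elim (fun i => ⟨h i, hh i⟩) (fun j => ⟨z j, (hz j).2⟩)
    have h1 : FinRel b := FinRel_of_FR hH b
    have h2 : FinRel (H.subtype ∘ b) :=
      (FinRel_comp_of_injective b H.subtype H.subtype_injective).2 h1
    have h3 : H.subtype ∘ b = G₁.subtype ∘ Sum.elim h' z' := by
      funext x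
      rcases x with x | x <;> rfl
    rw [h3] at h2
    exact (FinRel_comp_of_injective _ G₁.subtype G₁.subtype_injective).1 h2
  have hval : ∀ l : List (Fin n), ((val h' l : G₁) : G) = val h l := by
    intro l
    have := val_comp h' G₁.subtype l
    exact this.symm
  have hvalz : ∀ l : List (Fin m), ((val z' l : G₁) : G) = val z l := by
    intro l
    have := val_comp z' G₁.subtype l
    exact this.symm
  have hquot : FinRel (π ∘ h') := by
    refine FinRel_quotient h' z' π ?_ ?_ hfin
    · intro j
      exact (QuotientGroup.eq_one_iff _).2 (Subgroup.mem_subgroupOf.2 (hz j).1)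
    · intro u v huv
      have h1 : (val h' v)⁻¹ * val h' u ∈ C₁.subgroupOf G₁ := by
        rw [← QuotientGroup.eq]
        exact huv.symm
      rw [Subgroup.mem_subgroupOf] at h1
      have h2 : (val h v)⁻¹ * val h u ∈ C₁ := by
        have : (((val h' v)⁻¹ * val h' u : G₁) : G) = (val h v)⁻¹ * val h u := by
          push_cast
          rw [hval, hval]
        rw [← this]; exact h1
      have h3 : (val h v)⁻¹ * val h u ∈ H :=
        mul_mem (inv_mem (val_mem h H hh v)) (val_mem h H hh u)
      obtain ⟨w, hw⟩ := hw _ ⟨h2, h3⟩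
      refine ⟨w, Subtype.ext ?_⟩
      rw [Subgroup.coe_mul, hval, hval, hvalz, ← hw]
      group
  haveI hHn : (H.subgroupOf G₁).Normal := inferInstance
  haveI hHi : (H.subgroupOf G₁).FiniteIndex := inferInstance
  have ha' : FinRel a' := by
    refine FinRel_of_hom a' π (H.subgroupOf G₁) ?_ (by rw [hπ]; exact hquot)
    intro x hx y hy
    rw [QuotientGroup.ker_mk', Subgroup.mem_subgroupOf] at hx
    rw [Subgroup.mem_subgroupOf] at hy
    exact Subtype.ext (hcomm _ hx _ hy)
  have : FinRel (G₁.subtype ∘ a') :=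
    (FinRel_comp_of_injective a' G₁.subtype G₁.subtype_injective).2 ha'
  exact this

/-- If all finite extensions `G` of `H` with `C_G(H) ≤ H` inherit the property, all do. -/
theorem FR_reduction (H : Subgroup G) [H.Normal] [H.FiniteIndex] (hH : FR H) :
    (H ⊔ centralizer (H : Set G)).Normal ∧ (H ⊔ centralizer (H : Set G)).FiniteIndex ∧
      centralizer ((H ⊔ centralizer (H : Set G) : Subgroup G) : Set G) ≤
        H ⊔ centralizer (H : Set G) ∧
      FR (H ⊔ centralizer (H : Set G) : Subgroup G) := by
  set K : Subgroup G := H ⊔ centralizer (H : Set G) with hK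
  have hHK : H ≤ K := le_sup_left
  refine ⟨inferInstance, Subgroup.finiteIndex_of_le hHK, ?_, ?_⟩
  · exact (Subgroup.centralizer_le (show (H : Set G) ⊆ K from hHK)).trans le_sup_right
  · haveI h1 : (H.subgroupOf K).Normal := inferInstance
    haveI h2 : (H.subgroupOf K).FiniteIndex := inferInstance
    have h3 : FR (H.subgroupOf K) := by
      refine FR_of_injective
        ((K.subtype.comp (H.subgroupOf K).subtype).codRestrict H (fun x => x.2)) ?_ hH
      intro x y hxy
      have h5 := congrArg (fun t : H => (t : G)) hxy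
      exact Subtype.ext (Subtype.ext h5)
    refine FR_inner (H.subgroupOf K) h3 ?_
    rintro ⟨g, hg⟩
    obtain ⟨x, hx, y, hy, hxy⟩ := Subgroup.mem_sup_of_normal_left.1 hg
    refine ⟨⟨x, hHK hx⟩, hx, ⟨y, (le_sup_right : _ ≤ K) hy⟩, ?_, Subtype.ext hxy.symm⟩
    rw [Subgroup.mem_centralizer_iff]
    rintro ⟨w, hw⟩ hw'
    exact Subtype.ext (Subgroup.mem_centralizer_iff.1 hy w hw')

end Groups

end Pool.Agent.H10.MC
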