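import Mathlib
import Pool.Agent.H10.MC.Main
import Pool.Agent.H10.MC.Conv

/-!
# Malcev coherence and elements with finitely many conjugates
-/

set_option autoImplicit false
set_option linter.style.haveILetI false
set_option linter.unusedSectionVars false

namespace Pool.Agent.H10.MC

open Subgroup Pool.Agent.Helper45

/-- `g` has only finitely many conjugates in `G`. -/
def IsFC {G : Type*} [Group G] (g : G) : Prop := {x : G | ∃ y : G, x = y * g * y⁻¹}.Finite

section FCgroups

variable {G : Type*} [Group G]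

lemma isFC_iff (g : G) : IsFC g ↔ (centralizer ({g} : Set G)).FiniteIndex := by
  constructor
  · intro h
    have hfin : Finite {x : G | ∃ y : G, x = y * g * y⁻¹} := h
    let f : G ⧸ centralizer ({g} : Set G) → {x : G | ∃ y : G, x = y * g * y⁻¹} :=
      fun q => ⟨q.out * g * q.out⁻¹, ⟨_, rfl⟩⟩
    have hf : Function.Injective f := by
      intro p q hpq
      have h1 : p.out * g * p.out⁻¹ = q.out * g * q.out⁻¹ := congrArg Subtype.val hpq
      rw [← Quotient.out_eq p, ← Quotient.out_eq q]
      refine (QuotientGroup.eq).2 ?_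
      rw [Subgroup.mem_centralizer_iff]
      intro z hz
      have hz' : z = g := hz
      rw [hz']
      calc g * (p.out⁻¹ * q.out) = p.out⁻¹ * (p.out * g * p.out⁻¹) * q.out := by group
        _ = p.out⁻¹ * (q.out * g * q.out⁻¹) * q.out := by rw [h1]
        _ = p.out⁻¹ * q.out * g := by group
    have : Finite (G ⧸ centralizer ({g} : Set G)) := Finite.of_injective f hf
    exact Subgroup.finiteIndex_of_finite_quotient
  · intro h
    have hfin : Finite (G ⧸ centralizer ({g} : Set G)) := inferInstance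
    refine (Set.finite_range
      (fun q : G ⧸ centralizer ({g} : Set G) => q.out * g * q.out⁻¹)).subset ?_
    rintro _ ⟨y, rfl⟩
    refine ⟨(QuotientGroup.mk y : G ⧸ centralizer ({g} : Set G)), ?_⟩
    set t := (QuotientGroup.mk y : G ⧸ centralizer ({g} : Set G)).out with ht
    have hx : t⁻¹ * y ∈ centralizer ({g} : Set G) := by
      rw [← QuotientGroup.eq, ht]
      exact Quotient.out_eq _
    have h1 := Subgroup.mem_centralizer_iff.1 hx g rfl
    show t * g * t⁻¹ = y * g * y⁻¹
    calc t * g * t⁻¹ = t * (g * (t⁻¹ * y)) * y⁻¹ := by group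
      _ = t * (t⁻¹ * y * g) * y⁻¹ := by rw [h1]
      _ = y * g * y⁻¹ := by group

lemma isFC_conj {g : G} (h : IsFC g) (y : G) : IsFC (y * g * y⁻¹) := by
  refine h.subset ?_
  rintro _ ⟨z, rfl⟩
  exact ⟨z * y, by group⟩

lemma isFC_one : IsFC (1 : G) := by
  refine (Set.finite_singleton (1 : G)).subset ?_
  rintro _ ⟨y, rfl⟩
  simp

lemma isFC_mul {g h : G} (hg : IsFC g) (hh : IsFC h) : IsFC (g * h) := by
  refine (hg.image2 (fun x y => x * y) hh).subset ?_
  rintro _ ⟨y, rfl⟩
  exact ⟨y * g * y⁻¹, ⟨y, rfl⟩, y * h * y⁻¹, ⟨y, rfl⟩, by simp only; group⟩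

lemma isFC_inv {g : G} (hg : IsFC g) : IsFC g⁻¹ := by
  refine (hg.image (fun x => x⁻¹)).subset ?_
  rintro _ ⟨y, rfl⟩
  exact ⟨y * g * y⁻¹, ⟨y, rfl⟩, by simp only; group⟩

lemma conj_set_finite {X : Set G} (hX : X.Finite) (hFC : ∀ x ∈ X, IsFC x) :
    (Group.conjugatesOfSet X).Finite := by
  have h : (⋃ x ∈ X, {z : G | ∃ y : G, z = y * x * y⁻¹}).Finite := hX.biUnion hFC
  refine h.subset ?_
  intro z hz
  obtain ⟨x, hx, hc⟩ := Group.mem_conjugatesOfSet_iff.1 hz
  obtain ⟨c, rfl⟩ := isConj_iff.1 hc
  exact Set.mem_biUnion hx ⟨c, rfl⟩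

lemma normalClosure_fg {X : Set G} (hX : X.Finite) (hFC : ∀ x ∈ X, IsFC x) :
    (normalClosure X).FG := by
  have h := conj_set_finite hX hFC
  exact ⟨h.toFinset, by rw [Set.Finite.coe_toFinset]; rfl⟩

lemma centralizer_finite_set {Y : Set G} (hY : Y.Finite) (hFC : ∀ x ∈ Y, IsFC x) :
    (centralizer Y).FiniteIndex := by
  induction Y, hY using Set.Finite.induction_on with
  | empty =>
    have : centralizer (∅ : Set G) = ⊤ := by
      rw [eq_top_iff]
      intro x _
      rw [Subgroup.mem_centralizer_iff]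
      intro y hy
      exact absurd hy (Set.notMem_empty _)
    rw [this]; infer_instance
  | @insert y Y _ _ ih =>
    haveI h1 := ih (fun x hx => hFC x (Set.mem_insert_of_mem _ hx))
    haveI h2 : (centralizer ({y} : Set G)).FiniteIndex := (isFC_iff y).1 (hFC y (Set.mem_insert _ _))
    refine Subgroup.finiteIndex_of_le (H := centralizer ({y} : Set G) ⊓ centralizer Y) ?_
    rintro x ⟨hx1, hx2⟩
    rw [Subgroup.mem_centralizer_iff]
    rintro z (rfl | hz)
    · exact Subgroup.mem_centralizer_iff.1 hx1 _ rfl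
    · exact Subgroup.mem_centralizer_iff.1 hx2 z hz

lemma centralizer_normalClosure {X : Set G} (hX : X.Finite) (hFC : ∀ x ∈ X, IsFC x) :
    (centralizer ((normalClosure X : Subgroup G) : Set G)).FiniteIndex := by
  have h := conj_set_finite hX hFC
  haveI h1 : (centralizer (Group.conjugatesOfSet X)).FiniteIndex := by
    apply centralizer_finite_set h
    intro z hz
    obtain ⟨x, hx, hc⟩ := Group.mem_conjugatesOfSet_iff.1 hz
    obtain ⟨c, rfl⟩ := isConj_iff.1 hc
    exact isFC_conj (hFC x hx) c
  refine Subgroup.finiteIndex_of_le (H := centralizer (Group.conjugatesOfSet X)) ?_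
  have h2 : normalClosure X = closure (Group.conjugatesOfSet X) := rfl
  rw [h2, Subgroup.centralizer_closure]

/-- A group with a finitely generated subgroup of finite index is finitely generated. -/
lemma fg_of_fg_finiteIndex (J K : Subgroup G) (hK : K.FG) (hKJ : K ≤ J)
    (hi : (K.subgroupOf J).FiniteIndex) : J.FG := by
  classical
  obtain ⟨S, hS⟩ := hK
  haveI : Finite (J ⧸ K.subgroupOf J) := Subgroup.finite_quotient_of_finiteIndex
  let T : Set G := Set.range fun q : J ⧸ K.subgroupOf J => (q.out : G)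
  have hT : T.Finite := Set.finite_range _
  refine ⟨S ∪ hT.toFinset, ?_⟩
  apply le_antisymm
  · rw [closure_le]
    intro x hx
    simp only [Finset.coe_union, Set.Finite.coe_toFinset] at hx
    rcases hx with hx | ⟨q, rfl⟩
    · exact hKJ (by rw [← hS]; exact subset_closure hx)
    · exact q.out.2
  · intro x hx
    set q : J ⧸ K.subgroupOf J := QuotientGroup.mk ⟨x, hx⟩ with hq
    have h1 : (q.out)⁻¹ * ⟨x, hx⟩ ∈ K.subgroupOf J := by
      rw [← QuotientGroup.eq]
      exact Quotient.out_eq _
    rw [Subgroup.mem_subgroupOf] at h1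
    have hKle : K ≤ closure ((S ∪ hT.toFinset : Finset G) : Set G) := by
      rw [← hS]
      exact closure_mono (by simp)
    have h2 : ((q.out : G))⁻¹ * x ∈ closure ((S ∪ hT.toFinset : Finset G) : Set G) :=
      hKle (by simpa using h1)
    have h3 : (q.out : G) ∈ closure ((S ∪ hT.toFinset : Finset G) : Set G) := by
      apply Subgroup.subset_closure
      simp only [Finset.coe_union, Set.Finite.coe_toFinset]
      exact Or.inr ⟨q, rfl⟩
    have h4 := mul_mem h3 h2
    rwa [mul_inv_cancel_left] at h4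

/-- Subgroups of a finitely generated subgroup whose centraliser has finite index are finitely
generated. -/
lemma fg_of_le_fc (N J : Subgroup G) (hN : N.FG) (hC : (centralizer (N : Set G)).FiniteIndex)
    (hJ : J ≤ N) : J.FG := by
  have h1 : (N ⊓ centralizer (N : Set G)).FG := fg_inf_of_finiteIndex N _ hN
  have h2 : (J ⊓ centralizer (N : Set G)).FG := by
    refine fg_of_le_fg_comm _ _ h1 ?_ (inf_le_inf_right _ hJ)
    rintro x ⟨-, hx⟩ y ⟨hy, -⟩
    exact (Subgroup.mem_centralizer_iff.1 hx y hy).symm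
  refine fg_of_fg_finiteIndex J _ h2 inf_le_left ?_
  have : (J ⊓ centralizer (N : Set G)).subgroupOf J = (centralizer (N : Set G)).subgroupOf J := by
    ext x
    simp only [Subgroup.mem_subgroupOf, Subgroup.mem_inf]
    exact ⟨fun h => h.2, fun h => ⟨x.2, h⟩⟩
  rw [this]
  infer_instance

/-- **Extensions by subgroups of the FC-centre.** If every element of the normal subgroup `N` of
`G` has finitely many conjugates in `G` and `G / N` is Malcev coherent, so is `G`. -/
theorem FR_of_FC (N : Subgroup G) [N.Normal] (hN : ∀ x ∈ N, IsFC x) (h : FR (G ⧸ N)) : FR G := by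
  intro n a
  obtain ⟨E, hEf, hE1, hE2⟩ := h n (QuotientGroup.mk' N ∘ a)
  set X : Set G := FreeGroup.lift a '' E with hX
  have hXf : X.Finite := hEf.image _
  have hXN : X ⊆ N := by
    rintro _ ⟨r, hr, rfl⟩
    obtain ⟨u, v, hu, hv, huv, rfl⟩ := hE1 hr
    rw [val_comp, val_comp] at huv
    have : (val a u) * (val a v)⁻¹ ∈ N := by
      refine (QuotientGroup.eq_one_iff _).1 ?_
      show QuotientGroup.mk' N (val a u * (val a v)⁻¹) = 1
      rw [map_mul, map_inv, huv, mul_inv_cancel]
    simpa using this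
  have hFC : ∀ x ∈ X, IsFC x := fun x hx => hN x (hXN hx)
  haveI h1 := centralizer_normalClosure hXf hFC
  haveI h2 : (centralizer ((normalClosure X : Subgroup G) : Set G)).Normal := inferInstance
  refine FinRel_of_hom a (QuotientGroup.mk' (normalClosure X))
    (centralizer ((normalClosure X : Subgroup G) : Set G)) ?_ ?_
  · intro x hx c hc
    rw [QuotientGroup.ker_mk'] at hx
    exact Subgroup.mem_centralizer_iff.1 hc x hx
  · refine ⟨E, hEf, ?_, ?_⟩
    · intro r hr
      obtain ⟨u, v, hu, hv, huv, rfl⟩ := hE1 hr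
      refine ⟨u, v, hu, hv, ?_, rfl⟩
      rw [val_comp, val_comp]
      have h3 : val a u * (val a v)⁻¹ ∈ normalClosure X := by
        apply subset_normalClosure
        exact ⟨_, hr, by simp⟩
      have h4 : QuotientGroup.mk' (normalClosure X) (val a u * (val a v)⁻¹) = 1 :=
        (QuotientGroup.eq_one_iff _).2 h3
      rw [map_mul, map_inv] at h4
      exact mul_inv_eq_one.1 h4
    · refine subset_trans ?_ hE2
      rintro r ⟨u, v, hu, hv, huv, rfl⟩
      refine ⟨u, v, hu, hv, ?_, rfl⟩
      rw [val_comp, val_comp] at huv ⊢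
      have h3 : (val a v)⁻¹ * val a u ∈ normalClosure X := by
        rw [← QuotientGroup.eq]; exact huv.symm
      have h4 : (val a v)⁻¹ * val a u ∈ N := (normalClosure_le_normal hXN) h3
      show (QuotientGroup.mk (val a u) : G ⧸ N) = QuotientGroup.mk (val a v)
      exact ((QuotientGroup.eq).2 h4).symm

/-- **Products with the FC-centre.** If `H` is a Malcev coherent subgroup of `G` and every coset
`g H` contains an element with finitely many conjugates in `G`, then `G` is Malcev coherent. -/
theorem FR_of_FC_product (H : Subgroup G) (hH : FR H) (hG : ∀ g : G, ∃ h ∈ H, IsFC (h⁻¹ * g)) :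
    FR G := by
  classical
  intro n a
  choose h hh hc using fun i => hG (a i)
  set X : Set G := Set.range fun i => (h i)⁻¹ * a i with hX
  have hXf : X.Finite := Set.finite_range _
  have hFC : ∀ x ∈ X, IsFC x := by
    rintro _ ⟨i, rfl⟩
    exact hc i
  haveI h1 := centralizer_normalClosure hXf hFC
  haveI h2 : (centralizer ((normalClosure X : Subgroup G) : Set G)).Normal := inferInstance
  have hNfg := normalClosure_fg hXf hFC
  set N := normalClosure X with hN
  let π : G →* G ⧸ N := QuotientGroup.mk' N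
  refine FinRel_of_hom a π (centralizer (N : Set G)) ?_ ?_
  · intro x hx c hc
    rw [QuotientGroup.ker_mk'] at hx
    exact Subgroup.mem_centralizer_iff.1 hc x hx
  have hπ : π ∘ a = π ∘ h := by
    funext i
    show (QuotientGroup.mk (a i) : G ⧸ N) = QuotientGroup.mk (h i)
    refine ((QuotientGroup.eq).2 ?_).symm
    exact subset_normalClosure ⟨i, rfl⟩
  rw [hπ]
  obtain ⟨m, z, hz, hw⟩ := exists_monoid_generators (N ⊓ H) (fg_of_le_fc N _ hNfg h1 inf_le_left)
  refine FinRel_quotient h z π ?_ ?_ ?_
  · intro j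
    exact (QuotientGroup.eq_one_iff _).2 (hz j).1
  · intro u v huv
    have h3 : (val h v)⁻¹ * val h u ∈ N := by
      rw [← QuotientGroup.eq]; exact huv.symm
    have h4 : (val h v)⁻¹ * val h u ∈ H :=
      mul_mem (inv_mem (val_mem h H hh v)) (val_mem h H hh u)
    obtain ⟨w, hw⟩ := hw _ ⟨h3, h4⟩
    exact ⟨w, by rw [← hw]; group⟩
  · let b : Fin n ⊕ Fin m → H := Sum.elim (fun i => ⟨h i, hh i⟩) (fun j => ⟨z j, (hz j).2⟩)
    have h3 : FinRel b := FinRel_of_FR hH b
    have h4 : FinRel (H.subtype ∘ b) :=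
      (FinRel_comp_of_injective b H.subtype H.subtype_injective).2 h3
    have h5 : H.subtype ∘ b = Sum.elim h z := by
      funext x
      rcases x with x | x <;> rfl
    rwa [h5] at h4

/-- The FC-centre of a group. -/
def fcCenter (G : Type*) [Group G] : Subgroup G where
  carrier := {g | IsFC g}
  mul_mem' := isFC_mul
  one_mem' := isFC_one
  inv_mem' := isFC_inv

instance : (fcCenter G).Normal := ⟨fun _ hg y => isFC_conj hg y⟩

end FCgroups

/-- Reduction of the question on finite extensions to finitely generated groups `G` whose elements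
with finitely many conjugates lie in the given subgroup. -/
theorem reduction
    (hyp : ∀ (G : Type) [Group G] (H : Subgroup G), Group.FG G → H.Normal → H.FiniteIndex →
      (∀ g : G, IsFC g → g ∈ H) → FR H → FR G)
    (G : Type) [Group G] (H : Subgroup G) (hn : H.Normal) (hi : H.FiniteIndex) (hH : FR H) :
    FR G := by
  intro n a
  set G₁ : Subgroup G := closure (Set.range a) with hG₁
  have hfg : G₁.FG := ⟨(Set.finite_range a).toFinset, by simp [hG₁]⟩
  haveI : Group.FG G₁ := (Group.fg_iff_subgroup_fg _).2 hfg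
  let H₁ : Subgroup G₁ := H.subgroupOf G₁
  haveI h1n : H₁.Normal := inferInstance
  haveI h1i : H₁.FiniteIndex := inferInstance
  let K : Subgroup G₁ := H₁ ⊔ fcCenter G₁
  haveI hKn : K.Normal := inferInstance
  haveI hKi : K.FiniteIndex := Subgroup.finiteIndex_of_le (le_sup_left : H₁ ≤ K)
  have hH₁ : FR (H₁.subgroupOf K) := by
    refine FR_of_injective
      ((G₁.subtype.comp (K.subtype.comp (H₁.subgroupOf K).subtype)).codRestrict H
        (fun x => x.2)) ?_ hH
    intro x y hxy
    have h5 := congrArg (fun t : H => (t : G)) hxy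
    exact Subtype.ext (Subtype.ext (Subtype.ext h5))
  have hK : FR K := by
    refine FR_of_FC_product (H₁.subgroupOf K) hH₁ ?_
    rintro ⟨g, hg⟩
    obtain ⟨x, hx, y, hy, hxy⟩ := Subgroup.mem_sup_of_normal_left.1 hg
    refine ⟨⟨x, (le_sup_left : H₁ ≤ K) hx⟩, hx, ?_⟩
    have hyK : y ∈ K := (le_sup_right : fcCenter G₁ ≤ K) hy
    have e : (⟨x, (le_sup_left : H₁ ≤ K) hx⟩ : K)⁻¹ * ⟨g, hg⟩ = ⟨y, hyK⟩ := by
      apply Subtype.ext
      show x⁻¹ * g = y
      rw [← hxy]; group
    rw [e]
    have hy' : IsFC y := hy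
    refine Set.Finite.of_finite_image (f := (Subtype.val : K → G₁)) (hy'.subset ?_)
      Subtype.val_injective.injOn
    rintro _ ⟨_, ⟨w, rfl⟩, rfl⟩
    exact ⟨w, rfl⟩
  have hfin : FR G₁ := hyp G₁ K inferInstance hKn hKi
    (fun g hg => (le_sup_right : fcCenter G₁ ≤ K) hg) hK
  let a' : Fin n → G₁ := fun i => ⟨a i, subset_closure ⟨i, rfl⟩⟩
  have : FinRel (G₁.subtype ∘ a') :=
    (FinRel_comp_of_injective a' G₁.subtype G₁.subtype_injective).2 (hfin n a')
  exact this

end Pool.Agent.H10.MC
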