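import Mathlib
import Pool.Agent.H10.MC.FC

/-!
# Subsemigroups which meet the cosets in elements invertible modulo the FC-centre
-/

set_option autoImplicit false
set_option linter.style.haveILetI false
set_option linter.unusedSectionVars false

namespace Pool.Agent.H10.MC

open Subgroup Pool.Agent.Helper45

section RS

variable {G : Type*} [Group G]

/-- the state reached from `q` by a word -/
def run {A Q : Type*} (δ : Q → A → Q) : Q → List A → Q
  | q, [] => q
  | q, i :: l => run δ (δ q i) l

/-- the word in the new letters -/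
def tr {A Q : Type*} (δ : Q → A → Q) : Q → List A → List (Q × A)
  | _, [] => []
  | q, i :: l => (q, i) :: tr δ (δ q i) l

/-- Rewriting of positive relations with a finite automaton. -/
theorem FinRel_of_RS {A Q : Type*} [Finite A] [Finite Q] (a : A → G) (δ : Q → A → Q) (q₀ : Q)
    (W : Q → List A) (X : Q × A → List A) (hW : W q₀ = [])
    (hX : ∀ q i, val a (W q) * a i = val a (X (q, i)) * val a (W (δ q i)))
    (hrun : ∀ u v : List A, val a u = val a v → run δ q₀ u = run δ q₀ v)
    (h : FinRel (fun b => val a (X b))) : FinRel a := by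
  obtain ⟨E, hEf, hE1, hE2⟩ := h
  let η : FreeGroup (Q × A) →* FreeGroup A := FreeGroup.lift fun b => pos (X b)
  have hη : ∀ l : List (Q × A), val a (l.flatMap X) = val (fun b => val a (X b)) l := by
    intro l
    induction l with
    | nil => simp
    | cons b l ih => rw [List.flatMap_cons, val_append, ih, val_cons]
  have hη2 : ∀ l : List (Q × A), η (pos l) = pos (l.flatMap X) := by
    intro l
    induction l with
    | nil => simp
    | cons b l ih =>
      rw [pos_cons, map_mul, ih, List.flatMap_cons, pos_append]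
      simp [η]
  let E₂ : Set (FreeGroup A) := Set.range fun b : Q × A =>
    pos (W b.1 ++ [b.2]) * (pos (X b ++ W (δ b.1 b.2)))⁻¹
  refine finRel_of_finite a (η '' E ∪ E₂) ((hEf.image _).union (Set.finite_range _)) ?_ ?_
  · rintro _ (⟨r, hr, rfl⟩ | ⟨b, rfl⟩)
    · obtain ⟨u, v, hu, hv, huv, rfl⟩ := hE1 hr
      rw [map_mul, map_inv, hη2, hη2]
      apply mem_of_val_eq
      rw [hη, hη, huv]
    · apply mem_of_val_eq
      rw [val_append, val_append, val_cons, val_nil, mul_one]
      exact hX b.1 b.2
  · set N := normalClosure (η '' E ∪ E₂) with hN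
    let q : FreeGroup A →* FreeGroup A ⧸ N := QuotientGroup.mk' N
    have hstep : ∀ s i, q (pos (W s)) * q (FreeGroup.of i) =
        q (pos (X (s, i))) * q (pos (W (δ s i))) := by
      intro s i
      have h1 : q (pos (W s ++ [i]) * (pos (X (s, i) ++ W (δ s i)))⁻¹) = 1 :=
        (QuotientGroup.eq_one_iff _).2 (subset_normalClosure (Or.inr ⟨(s, i), rfl⟩))
      rw [map_mul, map_inv] at h1
      have h2 := mul_inv_eq_one.1 h1
      rw [pos_append, pos_append, pos_cons, pos_nil, mul_one, map_mul, map_mul] at h2
      exact h2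
    have hword : ∀ (u : List A) (s : Q), q (pos (W s)) * q (pos u) =
        q (η (pos (tr δ s u))) * q (pos (W (run δ s u))) := by
      intro u
      induction u with
      | nil => intro s; simp [tr, run]
      | cons i u ih =>
        intro s
        have e1 : η (pos (tr δ s (i :: u))) = pos (X (s, i)) * η (pos (tr δ (δ s i) u)) := by
          show η (pos ((s, i) :: tr δ (δ s i) u)) = _
          rw [pos_cons, map_mul]
          simp [η]
        rw [e1, pos_cons, map_mul, map_mul, ← mul_assoc, hstep, mul_assoc, ih, ← mul_assoc]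
        rfl
    have hvalt : ∀ (u : List A) (s : Q), val a (W s) * val a u =
        val (fun b => val a (X b)) (tr δ s u) * val a (W (run δ s u)) := by
      intro u
      induction u with
      | nil => intro s; simp [tr, run]
      | cons i u ih =>
        intro s
        show val a (W s) * val a (i :: u) =
          val (fun b => val a (X b)) ((s, i) :: tr δ (δ s i) u) * val a (W (run δ (δ s i) u))
        rw [val_cons, val_cons, ← mul_assoc, hX, mul_assoc, ih, mul_assoc]
    have hle : (normalClosure E).map η ≤ N := by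
      rw [Subgroup.map_le_iff_le_comap]
      apply normalClosure_le_normal
      intro x hx
      exact subset_normalClosure (Or.inl ⟨x, hx, rfl⟩)
    rintro r ⟨u, v, hu, hv, huv, rfl⟩
    have h1 := hvalt u q₀
    have h2 := hvalt v q₀
    rw [hrun u v huv, huv] at h1
    rw [h2] at h1
    have h3 := mul_right_cancel h1
    have h4 : pos (tr δ q₀ u) * (pos (tr δ q₀ v))⁻¹ ∈ normalClosure E :=
      (normalClosure_le_normal hE2) (mem_of_val_eq _ h3.symm)
    have h5 : q (η (pos (tr δ q₀ u) * (pos (tr δ q₀ v))⁻¹)) = 1 :=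
      (QuotientGroup.eq_one_iff _).2 (hle ⟨_, h4, rfl⟩)
    rw [map_mul, map_mul, map_inv, map_inv] at h5
    have h6 := mul_inv_eq_one.1 h5
    have h7 := hword u q₀
    have h8 := hword v q₀
    rw [hrun u v huv, h6, ← h8, hW] at h7
    have h9 : q (pos u) = q (pos v) := by
      have := mul_left_cancel h7
      exact this
    refine (QuotientGroup.eq_one_iff _).1 ?_
    show q (pos u * (pos v)⁻¹) = 1
    rw [map_mul, map_inv, h9, mul_inv_cancel]

/-- Tuples of elements of `H` modulo a finitely generated normal subgroup whose centraliser has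
finite index. -/
lemma FinRel_mod {B : Type*} [Finite B] (H : Subgroup G) (hH : FR H) (N : Subgroup G) [N.Normal]
    (hN : N.FG) (hC : (centralizer (N : Set G)).FiniteIndex) (z : B → G) (hz : ∀ b, z b ∈ H) :
    FinRel (QuotientGroup.mk' N ∘ z) := by
  obtain ⟨m, y, hy, hw⟩ := exists_monoid_generators (N ⊓ H) (fg_of_le_fc N _ hN hC inf_le_left)
  refine FinRel_quotient z y (QuotientGroup.mk' N) ?_ ?_ ?_
  · intro j
    exact (QuotientGroup.eq_one_iff _).2 (hy j).1
  · intro u v huv
    have h3 : (val z v)⁻¹ * val z u ∈ N := by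
      rw [← QuotientGroup.eq]; exact huv.symm
    have h4 : (val z v)⁻¹ * val z u ∈ H :=
      mul_mem (inv_mem (val_mem z H hz v)) (val_mem z H hz u)
    obtain ⟨w, hw⟩ := hw _ ⟨h3, h4⟩
    exact ⟨w, by rw [← hw]; group⟩
  · let b : B ⊕ Fin m → H := Sum.elim (fun i => ⟨z i, hz i⟩) (fun j => ⟨y j, (hy j).2⟩)
    have h3 : FinRel b := FinRel_of_FR hH b
    have h4 : FinRel (H.subtype ∘ b) :=
      (FinRel_comp_of_injective b H.subtype H.subtype_injective).2 h3
    have h5 : H.subtype ∘ b = Sum.elim z y := by
      funext x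
      rcases x with x | x <;> rfl
    rwa [h5] at h4

/-- Let `H` be a normal subgroup of finite index of `G` in which positive relations are finitely
based. The positive relations of a tuple are finitely based if every coset of `H` that contains a
nonempty positive word in the tuple contains such a word whose inverse is, up to an element with
finitely many conjugates, a positive word. -/
theorem FinRel_of_units {n : ℕ} (a : Fin n → G) (H : Subgroup G) [H.Normal] [H.FiniteIndex]
    (hH : FR H)
    (hyp : ∀ u : List (Fin n), u ≠ [] → ∃ w w' : List (Fin n), ∃ c : G, IsFC c ∧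
      (val a u)⁻¹ * val a w ∈ H ∧ (val a w)⁻¹ = val a w' * c) : FinRel a := by
  classical
  -- finitely many elements with finitely many conjugates
  have hc : ∀ p : G ⧸ H, ∃ c : G, IsFC c ∧ ((∃ u : List (Fin n), u ≠ [] ∧
      QuotientGroup.mk (val a u) = p) → ∃ w w' : List (Fin n),
        QuotientGroup.mk (val a w) = p ∧ (val a w)⁻¹ = val a w' * c) := by
    intro p
    by_cases hp : ∃ u : List (Fin n), u ≠ [] ∧ QuotientGroup.mk (val a u) = p
    · obtain ⟨u, hu, hup⟩ := hp
      obtain ⟨w, w', c, hc, h1, h2⟩ := hyp u hu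
      exact ⟨c, hc, fun _ => ⟨w, w', by rw [← hup]; exact ((QuotientGroup.eq).2 h1).symm, h2⟩⟩
    · exact ⟨1, isFC_one, fun h => absurd h hp⟩
  choose c hcFC hcw using hc
  have hXf : (Set.range c).Finite := Set.finite_range _
  have hFC : ∀ x ∈ Set.range c, IsFC x := by rintro _ ⟨p, rfl⟩; exact hcFC p
  haveI h1 := centralizer_normalClosure hXf hFC
  haveI h2 : (centralizer ((normalClosure (Set.range c) : Subgroup G) : Set G)).Normal :=
    inferInstance
  have hNfg := normalClosure_fg hXf hFC
  set N := normalClosure (Set.range c) with hN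
  let π : G →* G ⧸ N := QuotientGroup.mk' N
  have hπs : Function.Surjective π := QuotientGroup.mk'_surjective N
  refine FinRel_of_hom a π (centralizer (N : Set G)) ?_ ?_
  · intro x hx c hc
    rw [QuotientGroup.ker_mk'] at hx
    exact Subgroup.mem_centralizer_iff.1 hc x hx
  let K : Subgroup (G ⧸ N) := H.map π
  haveI hKn : K.Normal := Subgroup.Normal.map inferInstance π hπs
  haveI hKi : K.FiniteIndex := by
    constructor
    intro h0
    have h1 : K.index ∣ H.index := Subgroup.index_map_dvd H hπs
    rw [h0, zero_dvd_iff] at h1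
    exact Subgroup.FiniteIndex.index_ne_zero h1
  let b : Fin n → G ⧸ N := π ∘ a
  have hb : ∀ l, val b l = π (val a l) := val_comp a π
  let κ : G ⧸ N →* (G ⧸ N) ⧸ K := QuotientGroup.mk' K
  let Q : Type _ := {p : (G ⧸ N) ⧸ K // ∃ u : List (Fin n), κ (val b u) = p}
  have hex : ∀ p : Q, ∃ w w' : List (Fin n), κ (val b w) = p.1 ∧ val b w * val b w' = 1 ∧
      (p.1 = 1 → w = []) := by
    rintro ⟨p, u, hu⟩
    by_cases hp : p = 1
    · exact ⟨[], [], by simp [hp], by simp, fun _ => rfl⟩
    · have hu0 : u ≠ [] := by
        rintro rfl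
        apply hp
        rw [← hu]
        simp
      obtain ⟨w, w', hw, hw'⟩ := hcw (QuotientGroup.mk (val a u)) ⟨u, hu0, rfl⟩
      refine ⟨w, w', ?_, ?_, fun h => absurd h hp⟩
      · show κ (val b w) = p
        rw [← hu, hb, hb]
        refine (QuotientGroup.eq).2 ?_
        have h3 : (val a w)⁻¹ * val a u ∈ H := (QuotientGroup.eq).1 hw
        exact ⟨_, h3, by rw [map_mul, map_inv]⟩
      · rw [hb, hb, ← map_mul]
        refine (QuotientGroup.eq_one_iff _).2 ?_
        have h4 : val a w * val a w' = (c (QuotientGroup.mk (val a u)))⁻¹ := by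
          have : val a w' = (val a w)⁻¹ * (c (QuotientGroup.mk (val a u)))⁻¹ := by
            rw [hw']; group
          rw [this]; group
        rw [h4]
        exact inv_mem (subset_normalClosure ⟨_, rfl⟩)
  choose W W' hW1 hW2 hW3 using hex
  let δ : Q → Fin n → Q := fun p i => ⟨p.1 * κ (b i), by
    obtain ⟨u, hu⟩ := p.2
    exact ⟨u ++ [i], by rw [val_append, map_mul, hu]; simp⟩⟩
  let q₀ : Q := ⟨1, [], by simp⟩
  let X : Q × Fin n → List (Fin n) := fun x => W x.1 ++ [x.2] ++ W' (δ x.1 x.2)
  have hrun : ∀ (u : List (Fin n)) (p : Q), (run δ p u).1 = p.1 * κ (val b u) := by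
    intro u
    induction u with
    | nil => intro p; simp [run]
    | cons i u ih =>
      intro p
      show (run δ (δ p i) u).1 = _
      rw [ih, val_cons, map_mul, ← mul_assoc]
  have hW4 : ∀ p : Q, val b (W' p) * val b (W p) = 1 := by
    intro p
    rw [mul_eq_one_iff_eq_inv]
    exact (mul_eq_one_iff_inv_eq.1 (hW2 p)).symm
  haveI : Finite Q := inferInstance
  refine FinRel_of_RS b δ q₀ W X (hW3 q₀ rfl) ?_ ?_ ?_
  · intro p i
    show val b (W p) * b i = val b (W p ++ [i] ++ W' (δ p i)) * val b (W (δ p i))
    rw [val_append, val_append, mul_assoc (val b (W p) * val b [i]), hW4]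
    simp
  · intro u v huv
    apply Subtype.ext
    rw [hrun, hrun, huv]
  · -- the new letters are images of elements of `H`
    have hXH : ∀ x : Q × Fin n, ∃ z ∈ H, π z = val b (X x) := by
      rintro ⟨p, i⟩
      have h5 : κ (val b (X (p, i))) = 1 := by
        show κ (val b (W p ++ [i] ++ W' (δ p i))) = 1
        have h6 : κ (val b (W' (δ p i))) = (κ (val b (W (δ p i))))⁻¹ := by
          rw [← map_inv]
          congr 1
          exact (mul_eq_one_iff_eq_inv.1 (hW4 (δ p i)))
        rw [val_append, val_append, map_mul, map_mul, h6, hW1, hW1]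
        show p.1 * κ (val b [i]) * (p.1 * κ (b i))⁻¹ = 1
        simp
      have h7 : val b (X (p, i)) ∈ K := (QuotientGroup.eq_one_iff _).1 h5
      obtain ⟨z, hz, hzx⟩ := h7
      exact ⟨z, hz, hzx⟩
    choose z hz hzX using hXH
    have h8 := FinRel_mod H hH N hNfg h1 z hz
    have h9 : QuotientGroup.mk' N ∘ z = fun x => val b (X x) := funext hzX
    rwa [h9] at h8

end RS

end Pool.Agent.H10.MC
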