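import Mathlib
import Pool.Agent.H10.MC.RS

/-!
# Finite Malcev presentations of single semigroups
-/

set_option autoImplicit false
set_option linter.style.haveILetI false

namespace Pool.Agent.H10.MC

open Subgroup Pool.Agent.Helper45

theorem finMalcev_of_FinRel {G : Type} [Group G] {n : ℕ} (a : Fin n → G) (h : FinRel a) :
    FinMalcev (Subsemigroup.closure (Set.range a)) := by
  classical
  let ι : Fin n → Subsemigroup.closure (Set.range a) := fun i =>
    ⟨a i, Subsemigroup.subset_closure ⟨i, rfl⟩⟩
  have hι : ∀ w : FreeSemigroup (Fin n),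
      ((FreeSemigroup.lift ι w : Subsemigroup.closure (Set.range a)) : G) =
        FreeSemigroup.lift a w := by
    intro w
    induction w using FreeSemigroup.recOnMul with
    | ih1 x => rfl
    | ih2 x y hx hy => rw [map_mul, map_mul, MulMemClass.coe_mul, hx, hy]
  have hcl : Subsemigroup.closure (Set.range ι) = ⊤ := by
    have : Set.range ι =
        ((↑) : Subsemigroup.closure (Set.range a) → G) ⁻¹' (Set.range a) := by
      ext x
      constructor
      · rintro ⟨i, rfl⟩; exact ⟨i, rfl⟩
      · rintro ⟨i, hi⟩; exact ⟨i, Subtype.ext hi⟩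
    rw [this]
    exact Subsemigroup.closure_closure_coe_preimage
  obtain ⟨E, hEf, hE1, hE2⟩ := h
  have hchoice : ∀ r : E, ∃ p : FreeSemigroup (Fin n) × FreeSemigroup (Fin n),
      FreeSemigroup.lift a p.1 = FreeSemigroup.lift a p.2 ∧
        (r : FreeGroup (Fin n)) = posWord p.1 * (posWord p.2)⁻¹ := by
    rintro ⟨r, hr⟩
    obtain ⟨u, v, hu, hv, huv, hr'⟩ := hE1 hr
    obtain ⟨x, rfl⟩ := exists_word u hu
    obtain ⟨y, rfl⟩ := exists_word v hv
    exact ⟨(x, y), by rw [lift_eq_val, lift_eq_val]; exact huv,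
      by rw [posWord_eq, posWord_eq]; exact hr'⟩
  choose p hp1 hp2 using hchoice
  haveI : Finite E := hEf
  refine ⟨n, (Set.finite_range p).toFinset, FreeSemigroup.lift ι, lift_surjective ι hcl, ?_, ?_⟩
  · intro r hr
    rw [Set.Finite.mem_toFinset] at hr
    obtain ⟨e, rfl⟩ := hr
    exact Subtype.ext (by rw [hι, hι]; exact hp1 e)
  · intro H _ g hg x y hxy
    let φ : FreeGroup (Fin n) →* H := FreeGroup.lift (fun i => g (FreeSemigroup.of i))
    have hφ : ∀ w : FreeSemigroup (Fin n), φ (posWord w) = g w := by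
      intro w
      induction w using FreeSemigroup.recOnMul with
      | ih1 x => simp [φ, posWord]
      | ih2 x y hx hy => rw [map_mul, map_mul, map_mul, hx, hy]
    have hk : normalClosure E ≤ φ.ker := by
      apply normalClosure_le_normal
      intro r hr
      show φ r = 1
      have e1 := hp2 ⟨r, hr⟩
      simp only at e1
      rw [e1, map_mul, map_inv, hφ, hφ,
        hg (p ⟨r, hr⟩) ((Set.Finite.mem_toFinset _).2 ⟨_, rfl⟩), mul_inv_cancel]
    have h1 : FreeSemigroup.lift a x = FreeSemigroup.lift a y := by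
      rw [← hι, ← hι, hxy]
    have h2 : posWord x * (posWord y)⁻¹ ∈ normalClosure E := by
      apply hE2
      refine ⟨x.head :: x.tail, y.head :: y.tail, by simp, by simp, ?_, ?_⟩
      · rw [← lift_eq_val, ← lift_eq_val, h1]
      · rw [posWord_eq, posWord_eq]
    have h4 : φ (posWord x * (posWord y)⁻¹) = 1 := hk h2
    rw [map_mul, map_inv, hφ, hφ] at h4
    exact mul_inv_eq_one.1 h4

/-- Finitely generated subsemigroups `S` of finite extensions of `H` such that every coset of `H`
met by `S` contains an element of `S` whose inverse is in `S c` for some `c` with finitely many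
conjugates. -/
theorem finMalcev_of_units {G : Type} [Group G] (H : Subgroup G) [H.Normal] [H.FiniteIndex]
    (hH : FR H) (S : Subsemigroup G) (hS : ∃ T : Finset G, S = Subsemigroup.closure (T : Set G))
    (hyp : ∀ s ∈ S, ∃ w ∈ S, ∃ w' ∈ S, ∃ c : G, IsFC c ∧ s⁻¹ * w ∈ H ∧ w⁻¹ = w' * c) :
    FinMalcev S := by
  classical
  obtain ⟨T, rfl⟩ := hS
  obtain ⟨n, ⟨e⟩⟩ := Finite.exists_equiv_fin T
  let a : Fin n → G := fun i => (e.symm i : T)
  have ha : Set.range a = (T : Set G) := by
    ext x
    constructor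
    · rintro ⟨i, rfl⟩; exact (e.symm i).2
    · intro hx; exact ⟨e ⟨x, hx⟩, by simp [a]⟩
  rw [← ha] at hyp ⊢
  have hmem : ∀ u : List (Fin n), u ≠ [] → val a u ∈ Subsemigroup.closure (Set.range a) := by
    intro u
    induction u with
    | nil => intro h; exact absurd rfl h
    | cons i u ih =>
      intro _
      rw [val_cons]
      have h1 : a i ∈ Subsemigroup.closure (Set.range a) := Subsemigroup.subset_closure ⟨i, rfl⟩
      by_cases hu : u = []
      · subst hu
        simpa using h1
      · exact mul_mem h1 (ih hu)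
  have hword : ∀ x ∈ Subsemigroup.closure (Set.range a), ∃ u : List (Fin n), val a u = x := by
    intro x hx
    induction hx using Subsemigroup.closure_induction with
    | mem x hx =>
      obtain ⟨i, rfl⟩ := hx
      exact ⟨[i], by simp⟩
    | mul x y _ _ hx hy =>
      obtain ⟨u, rfl⟩ := hx
      obtain ⟨v, rfl⟩ := hy
      exact ⟨u ++ v, by simp⟩
  refine finMalcev_of_FinRel a (FinRel_of_units a H hH ?_)
  intro u hu
  obtain ⟨w, hw, w', hw', c, hc, h1, h2⟩ := hyp _ (hmem u hu)
  obtain ⟨v, rfl⟩ := hword w hw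
  obtain ⟨v', rfl⟩ := hword w' hw'
  exact ⟨v, v', c, hc, h1, h2⟩

end Pool.Agent.H10.MC
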